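import Pool.Agent.TH163.AC3.Sw
import Pool.Agent.H568R2.Collapse

set_option autoImplicit false

/-! The bottom-up part: random restrictions of nets of gates with free negations. -/

namespace Pool.Agent.J4H64.AD

open Finset H568R2 Pool.Agent.TH163.AC3

variable {I : Type} [Fintype I] [DecidableEq I]

/-- all gates of level less than `j` have shallow decision trees under `ρ` -/
def Sh {G : Type} (v : G → (I → Bool) → Bool) (lev : G → ℕ) (s j : ℕ) (ρ : Restr I) : Prop :=
  ∀ g, lev g < j → HasDT s (rs (v g) ρ)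

omit [Fintype I] [DecidableEq I] in
theorem cert_rs {K : ℕ} {b : Bool} {f : (I → Bool) → Bool} (h : Cert K b f) (ρ : Restr I) :
    Cert K b (rs f ρ) := by
  intro x hx
  obtain ⟨A, hA, hy⟩ := h _ hx
  refine ⟨A, hA, fun y hxy => hy _ fun i hi => ?_⟩
  unfold ov
  rw [hxy i hi]

open Classical in
/-- **The collapse.** -/
theorem collapse {G : Type} [Fintype G] (v : G → (I → Bool) → Bool) (lev : G → ℕ)
    (h0 : ∀ g, lev g = 0 → ∃ b, Cert 1 b (v g)) {s : ℕ} (hs : 1 ≤ s)
    (h1 : ∀ g (ρ : Restr I), (∀ h, lev h < lev g → HasDT s (rs (v h) ρ)) →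
      ∃ b, Cert s b (rs (v g) ρ)) :
    ∀ j : ℕ, Ex (wq ((1 / 24) * (1 / (24 * s : ℝ)) ^ j))
        (fun ρ : Restr I => if ¬ Sh v lev s (j + 1) ρ then (1 : ℝ) else 0) ≤
      (j + 1) * Fintype.card G * (1 / 2) ^ (s + 1) := by
  have hs0 : (1 : ℝ) ≤ s := by exact_mod_cast hs
  set q : ℝ := 1 / (24 * s) with hq
  have hq0 : 0 < q := by rw [hq]; positivity
  have hq1 : q ≤ 1 / 3 := by
    rw [hq, div_le_div_iff₀ (by positivity) (by norm_num)]
    linarith
  have hq2 : (12 * s * q : ℝ) = 1 / 2 := by rw [hq]; field_simp; norm_num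
  -- the union bound
  have hunion : ∀ (j : ℕ) (p : ℝ), 0 ≤ p → p ≤ 1 →
      ∀ ρ : Restr I, (∀ g, lev g ≤ j → Ex (wq p) (fun τ : Restr I =>
        if ¬ HasDT s (rs (v g) (cmp ρ τ)) then (1 : ℝ) else 0) ≤ (1 / 2) ^ (s + 1)) →
      Ex (wq p) (fun τ : Restr I => if ¬ Sh v lev s (j + 1) (cmp ρ τ) then (1 : ℝ) else 0) ≤
        Fintype.card G * (1 / 2) ^ (s + 1) := by
    intro j p hp0 hp1 ρ hg
    have hw : ∀ a, 0 ≤ wq p a := wq_nonneg hp0 hp1
    have hpt : ∀ τ : Restr I, (if ¬ Sh v lev s (j + 1) (cmp ρ τ) then (1 : ℝ) else 0) ≤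
        ∑ g ∈ univ.filter (fun g : G => lev g ≤ j),
          (if ¬ HasDT s (rs (v g) (cmp ρ τ)) then (1 : ℝ) else 0) := by
      intro τ
      have hnn : ∀ g ∈ univ.filter (fun g : G => lev g ≤ j),
          (0 : ℝ) ≤ (if ¬ HasDT s (rs (v g) (cmp ρ τ)) then (1 : ℝ) else 0) := by
        intro g _
        split_ifs <;> norm_num
      by_cases hGG : Sh v lev s (j + 1) (cmp ρ τ)
      · simp only [hGG, not_true, if_false]
        exact Finset.sum_nonneg hnn
      · simp only [hGG, not_false_iff, if_true]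
        have hex : ∃ g, lev g ≤ j ∧ ¬ HasDT s (rs (v g) (cmp ρ τ)) := by
          by_contra hcon
          apply hGG
          intro g hg'
          by_contra hJ
          exact hcon ⟨g, by omega, hJ⟩
        obtain ⟨g, hg', hJ⟩ := hex
        refine le_trans ?_ (Finset.single_le_sum hnn
          (Finset.mem_filter.2 ⟨Finset.mem_univ g, hg'⟩))
        rw [if_pos hJ]
    refine (Ex_mono hw hpt).trans ?_
    rw [Ex_sum]
    refine (Finset.sum_le_card_nsmul _ _ _ fun g hg' => hg g (Finset.mem_filter.1 hg').2).trans ?_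
    rw [nsmul_eq_mul]
    apply mul_le_mul_of_nonneg_right _ (by positivity)
    have : (univ.filter (fun g : G => lev g ≤ j)).card ≤ Fintype.card G := by
      rw [← card_univ]
      exact card_le_card (filter_subset _ _)
    exact_mod_cast this
  intro j
  induction j with
  | zero =>
    rw [pow_zero, mul_one, Nat.cast_zero, zero_add (1 : ℝ), one_mul]
    have h2 := hunion 0 (1 / 24) (by norm_num) (by norm_num) (fun _ => none) (by
      intro g hg
      obtain ⟨b, hb⟩ := h0 g (by omega)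
      have h3 := switching' (s := s) (q := (1 : ℝ) / 24) (by norm_num) (by norm_num) hb
      refine h3.trans (le_of_eq ?_)
      norm_num)
    exact h2
  | succ j ih =>
    rw [pow_succ, ← mul_assoc, wq_cmp]
    set ε : ℝ := (1 / 2) ^ (s + 1) with hε
    have hε0 : 0 ≤ ε := by positivity
    have hj0 : 0 ≤ 1 / 24 * q ^ j := by positivity
    have hj1 : 1 / 24 * q ^ j ≤ 1 := by
      have := pow_le_one₀ (n := j) hq0.le (by linarith : q ≤ 1)
      linarith
    have hwj : ∀ a, 0 ≤ wq (1 / 24 * q ^ j) a := wq_nonneg hj0 hj1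
    have hw1 : ∀ a, 0 ≤ wq q a := wq_nonneg hq0.le (by linarith)
    have hin : ∀ ρ : Restr I, Ex (wq q) (fun τ : Restr I =>
        if ¬ Sh v lev s (j + 1 + 1) (cmp ρ τ) then (1 : ℝ) else 0) ≤
        (if ¬ Sh v lev s (j + 1) ρ then (1 : ℝ) else 0) + Fintype.card G * ε := by
      intro ρ
      by_cases hG : Sh v lev s (j + 1) ρ
      · simp only [hG, not_true, if_false, zero_add]
        apply hunion (j + 1) q hq0.le (by linarith) ρ
        intro g hg
        obtain ⟨b, hb⟩ := h1 g ρ (fun h hh => hG h (by omega))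
        have h3 := switching' (s := s) hq0.le hq1 hb
        rw [hq2] at h3
        refine le_trans (le_of_eq ?_) h3
        congr 1
        funext τ
        rw [rs_cmp]
      · simp only [hG, not_false_iff, if_true]
        have h2 : Ex (wq q) (fun τ : Restr I =>
            if ¬ Sh v lev s (j + 1 + 1) (cmp ρ τ) then (1 : ℝ) else 0) ≤
            Ex (wq q) (fun _ : Restr I => (1 : ℝ)) := by
          apply Ex_mono hw1
          intro τ
          split_ifs <;> norm_num
        rw [Ex_const (wq_sum q)] at h2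
        have : 0 ≤ Fintype.card G * ε := by positivity
        linarith
    refine (Ex_mono hwj hin).trans ?_
    rw [Ex_add, Ex_const (wq_sum _)]
    push_cast at ih ⊢
    linarith

open Classical in
/-- A block of stars is hit. -/
theorem no_star {P : Type} [Fintype P] [DecidableEq P] {L : ℕ} {p : ℝ} (b : P) :
    Ex (wq p) (fun ρ : Restr (P × Fin L) => if ∀ l, ρ (b, l) ≠ none then (1 : ℝ) else 0) =
      (1 - p) ^ L := by
  have h := Ex_indep (I := P × Fin L) (wq_sum p) (fun a : Option Bool => a ≠ none)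
    (univ.image fun l : Fin L => (b, l)) (fun _ => 1) (by intros; rfl)
  have h1 : (fun ω : Restr (P × Fin L) => (1 : ℝ) *
      (if ∀ i ∈ univ.image fun l : Fin L => (b, l), ω i ≠ none then 1 else 0)) =
      fun ρ => if ∀ l, ρ (b, l) ≠ none then (1 : ℝ) else 0 := by
    funext ω
    rw [one_mul]
    congr 1
    apply propext
    simp
  rw [h1, Ex_const (wq_sum p), mul_one, card_image_of_injective _ (by
    intro l l' hl
    simpa using hl), card_univ, Fintype.card_fin] at h
  rw [h]
  congr 1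
  have h2 := wq_sum p
  rw [Fintype.sum_option] at h2
  have h3 : (univ.filter fun a : Option Bool => a ≠ none) = {some true, some false} := by
    ext a
    rcases a with _ | _ | _ <;> simp
  rw [h3, sum_pair (by simp)]
  simp [wq]

/-- **A good restriction.** -/
theorem exists_rho {P G : Type} [Fintype P] [DecidableEq P] [Fintype G] {L : ℕ}
    (v : G → (P × Fin L → Bool) → Bool) (lev : G → ℕ)
    (h0 : ∀ g, lev g = 0 → ∃ b, Cert 1 b (v g)) {s : ℕ} (hs : 1 ≤ s)
    (h1 : ∀ g (ρ : Restr (P × Fin L)), (∀ h, lev h < lev g → HasDT s (rs (v h) ρ)) →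
      ∃ b, Cert s b (rs (v g) ρ)) (a k : ℕ) (hL : L = 24 ^ (a + 1) * s ^ a * k)
    (hk : 4 * Fintype.card P ≤ 2 ^ k) (hS : (a + 1) * Fintype.card G * 2 ≤ 2 ^ s) :
    ∃ ρ : Restr (P × Fin L), Sh v lev s (a + 1) ρ ∧ ∀ b, ∃ l, ρ (b, l) = none := by
  classical
  have hs0 : (1 : ℝ) ≤ s := by exact_mod_cast hs
  set p : ℝ := (1 / 24) * (1 / (24 * s : ℝ)) ^ a with hp
  have hp0 : 0 < p := by positivity
  have hp1 : p ≤ 1 := by
    have h2 : (1 / (24 * s : ℝ)) ≤ 1 := by
      rw [div_le_one (by positivity)]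
      linarith
    have := pow_le_one₀ (n := a) (by positivity : (0 : ℝ) ≤ 1 / (24 * s)) h2
    rw [hp]
    linarith
  have hw : ∀ a, 0 ≤ wq p a := wq_nonneg hp0.le hp1
  have hc := collapse v lev h0 hs h1 a
  have hb : ∀ b : P, Ex (wq p) (fun ρ : Restr (P × Fin L) =>
      if ∀ l, ρ (b, l) ≠ none then (1 : ℝ) else 0) ≤ (1 / 2) ^ k := by
    intro b
    rw [no_star]
    have h2 : p * L = k := by
      rw [hp, hL]
      push_cast
      rw [one_div_pow, mul_pow, pow_succ]
      field_simp
    calc (1 - p) ^ L ≤ (Real.exp (-p)) ^ L := by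
          apply pow_le_pow_left₀ (by linarith)
          have := Real.add_one_le_exp (-p)
          linarith
      _ = Real.exp (-k) := by
          rw [← Real.exp_nat_mul]
          congr 1
          rw [← h2]
          ring
      _ = (Real.exp (-1)) ^ k := by
          rw [← Real.exp_nat_mul]
          congr 1
          ring
      _ ≤ (1 / 2) ^ k := by
          apply pow_le_pow_left₀ (Real.exp_pos _).le
          rw [Real.exp_neg, ← one_div]
          apply one_div_le_one_div_of_le (by norm_num)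
          have := Real.add_one_le_exp (1 : ℝ)
          linarith
  by_contra hcon
  push Not at hcon
  have hpt : ∀ ρ : Restr (P × Fin L), (1 : ℝ) ≤
      (if ¬ Sh v lev s (a + 1) ρ then (1 : ℝ) else 0) +
        ∑ b : P, if ∀ l, ρ (b, l) ≠ none then (1 : ℝ) else 0 := by
    intro ρ
    by_cases hρ : Sh v lev s (a + 1) ρ
    · obtain ⟨b, hb⟩ := hcon ρ hρ
      simp only [hρ, not_true, if_false, zero_add]
      have := single_le_sum (f := fun b : P => if ∀ l, ρ (b, l) ≠ none then (1 : ℝ) else 0)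
        (s := univ) (fun b _ => by split_ifs <;> norm_num) (mem_univ b)
      simp only [hb, ne_eq, not_false_iff, implies_true, if_true] at this
      exact this
    · simp only [hρ, not_false_iff, if_true]
      have : (0 : ℝ) ≤ ∑ b : P, if ∀ l, ρ (b, l) ≠ none then (1 : ℝ) else 0 :=
        sum_nonneg fun b _ => by split_ifs <;> norm_num
      linarith
  have h2 := Ex_mono hw hpt
  rw [Ex_const (wq_sum p), Ex_add, Ex_sum] at h2
  have h3 : ∑ b : P, Ex (wq p) (fun ρ : Restr (P × Fin L) =>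
      if ∀ l, ρ (b, l) ≠ none then (1 : ℝ) else 0) ≤ Fintype.card P * (1 / 2) ^ k := by
    refine (sum_le_card_nsmul _ _ _ fun b _ => hb b).trans ?_
    rw [nsmul_eq_mul, card_univ]
  have h4 : (Fintype.card P : ℝ) * (1 / 2) ^ k ≤ 1 / 4 := by
    have h5 : ((4 * Fintype.card P : ℕ) : ℝ) ≤ ((2 ^ k : ℕ) : ℝ) := by exact_mod_cast hk
    push_cast at h5
    have h6 : (1 / 2 : ℝ) ^ k * 2 ^ k = 1 := by rw [← mul_pow]; norm_num
    have h7 : (0 : ℝ) < (1 / 2) ^ k := by positivity
    nlinarith
  have h5 : ((a : ℝ) + 1) * Fintype.card G * (1 / 2) ^ (s + 1) ≤ 1 / 4 := by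
    have h5 : (((a + 1) * Fintype.card G * 2 : ℕ) : ℝ) ≤ ((2 ^ s : ℕ) : ℝ) := by exact_mod_cast hS
    push_cast at h5
    have h6 : (1 / 2 : ℝ) ^ (s + 1) * 2 ^ s = 1 / 2 := by
      rw [pow_succ, mul_right_comm, ← mul_pow]; norm_num
    have h7 : (0 : ℝ) < (1 / 2) ^ (s + 1) := by positivity
    nlinarith
  linarith

end Pool.Agent.J4H64.AD
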