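import Pool.Agent.J4H64.AD.Main

set_option autoImplicit false

/-! The lower bound for all depths. -/

namespace Pool.Agent.J4H64.AD

open Filter Pool.Agent.H596R2.D3

/-- the number of variables which suffices -/
def nv (a s k : ℕ) : ℕ := (s + 1) * (4 * s + 1) + 2 * s * (24 ^ (a + 1) * s ^ a * k + 1)

/-- **The finite statement.** -/
theorem size_bound {a n m s k : ℕ} (hm : 3 ≤ m) (hs : 1 ≤ s)
    (hk : 4 * ((s + 1) * (2 * s)) ≤ 2 ^ k) (hn : nv a s k ≤ n)
    (C : Circuit (Clause n m) (a + 3)) (hC : C.Decides) : 2 ^ s < (a + 1) * C.size * 2 := by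
  by_contra hcon
  push Not at hcon
  have key : (2 * s) ^ (s + 1) ≤ (2 * C.size + 1) * s ^ (s + 1) := by
    unfold nv at hn
    obtain ⟨L, hL⟩ : ∃ L, L = 24 ^ (a + 1) * s ^ a * k := ⟨_, rfl⟩
    rw [← hL] at hn
    rcases hb : C.conj C.out with _ | _
    · -- an OR gate at the output
      obtain ⟨X, hX, hS⟩ := embA (K := Fin (s + 1)) (I := Fin (s + 1)) (r := 2 * s) (L := L)
        (n := n) (k := m) hm id (by
          rw [Fintype.card_fin]
          refine le_trans ?_ hn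
          have h1 : (s + 1) * (L + 1) ≤ 2 * s * (L + 1) := Nat.mul_le_mul_right _ (by omega)
          have h2 : (s + 1) * (2 * s + (2 * s + 1)) = (s + 1) * (4 * s + 1) := by ring
          omega)
      have h1 := core (B := Fin (s + 1) × Fin (2 * s)) (M := Fin (s + 1)) (R := Fin (2 * s))
        (Equiv.refl _) C hX hs hL (by simpa using hk) hcon (by simp) false (by
          intro w
          rw [hb]
          simp only [bv, Bool.not_false, decide_eq_true_eq, Equiv.refl_symm, Equiv.refl_apply]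
          rw [hC, hS]
          constructor
          · intro h i
            obtain ⟨j, hj⟩ := h i
            exact ⟨j, hj i rfl⟩
          · intro h i
            obtain ⟨j, hj⟩ := h i
            refine ⟨j, ?_⟩
            rintro i' rfl
            exact hj)
      simpa using h1
    · -- an AND gate at the output
      obtain ⟨X, hX, hS⟩ := embA (K := Unit) (I := Fin (2 * s)) (r := s + 1) (L := L)
        (n := n) (k := m) hm (fun _ => ()) (by
          rw [Fintype.card_fin, Fintype.card_unit]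
          refine le_trans ?_ hn
          have h2 : s + 1 + (s + 1 + 1) ≤ (s + 1) * (4 * s + 1) := by nlinarith
          omega)
      have h1 := core (B := Fin (2 * s) × Fin (s + 1)) (M := Fin (s + 1)) (R := Fin (2 * s))
        (Equiv.prodComm _ _) C hX hs hL (by
          rw [Fintype.card_prod, Fintype.card_fin, Fintype.card_fin, mul_comm (2 * s)]
          exact hk) hcon (by simp) true (by
          intro w
          rw [hb]
          simp only [bv, Bool.not_true, decide_eq_false_iff_not, Equiv.prodComm_symm,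
            Equiv.prodComm_apply, Prod.swap_prod_mk]
          rw [hC, hS]
          constructor
          · intro h j
            by_contra hne
            push Not at hne
            apply h
            intro _
            refine ⟨j, fun i _ => ?_⟩
            simpa using hne i
          · intro h hcon
            obtain ⟨j, hj⟩ := hcon ()
            obtain ⟨i, hi⟩ := h j
            rw [hj i rfl] at hi
            exact absurd hi (by simp))
      simpa using h1
  rw [mul_pow] at key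
  have h1 : 0 < s ^ (s + 1) := Nat.pow_pos hs
  have h2 : 2 ^ (s + 1) ≤ 2 * C.size + 1 := Nat.le_of_mul_le_mul_right key h1
  have h3 : 2 ^ s ≤ C.size := by
    rw [pow_succ] at h2
    omega
  have h4 : 0 < 2 ^ s := by positivity
  have h5 : C.size * 2 ≤ (a + 1) * C.size * 2 := by
    apply Nat.mul_le_mul_right
    exact Nat.le_mul_of_pos_left _ (by omega)
  omega

theorem nv_le {a n s : ℕ} (ha : 1 ≤ a) (hs : 1 ≤ s) (hsn : s + 1 ≤ n) (hn : 3 ≤ n)
    (h : (s : ℝ) ^ (a + 1) * (28 * 24 ^ (a + 1) * Real.log n) ≤ n) :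
    nv a s (2 * Nat.clog 2 (s + 1) + 3) ≤ n := by
  have hn' : (3 : ℝ) ≤ n := by exact_mod_cast hn
  have hlog : 1 ≤ Real.log n := by
    rw [← Real.log_exp 1]
    apply Real.log_le_log (Real.exp_pos 1)
    have := Real.exp_one_lt_d9
    linarith
  have hk : ((2 * Nat.clog 2 (s + 1) + 3 : ℕ) : ℝ) ≤ 8 * Real.log n := by
    have h1 : (Nat.clog 2 (s + 1) : ℝ) ≤ Real.log n / Real.log 2 + 1 := by
      have h2 : Nat.clog 2 (s + 1) ≤ Nat.log 2 n + 1 := by
        refine (Nat.clog_mono_right 2 hsn).trans ?_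
        exact Nat.clog_le_of_le_pow (Nat.lt_pow_succ_log_self (by norm_num) n).le
      have h3 : ((Nat.log 2 n : ℕ) : ℝ) ≤ Real.log n / Real.log 2 := by
        rw [le_div_iff₀ (Real.log_pos (by norm_num))]
        rw [← Real.log_pow]
        apply Real.log_le_log (by positivity)
        exact_mod_cast Nat.pow_log_le_self 2 (by omega)
      have h4 : (Nat.clog 2 (s + 1) : ℝ) ≤ ((Nat.log 2 n + 1 : ℕ) : ℝ) := by exact_mod_cast h2
      push_cast at h4
      linarith
    have h2 : Real.log n / Real.log 2 ≤ 3 / 2 * Real.log n := by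
      rw [div_le_iff₀ (Real.log_pos (by norm_num))]
      have := Real.log_two_gt_d9
      nlinarith
    push_cast
    linarith
  have hs' : (1 : ℝ) ≤ s := by exact_mod_cast hs
  have hpow : (s : ℝ) ^ 2 ≤ (s : ℝ) ^ (a + 1) := pow_le_pow_right₀ hs' (by omega)
  have hpow1 : (s : ℝ) ≤ (s : ℝ) ^ (a + 1) := by
    calc (s : ℝ) = (s : ℝ) ^ 1 := (pow_one _).symm
      _ ≤ _ := pow_le_pow_right₀ hs' (by omega)
  have h24 : (1 : ℝ) ≤ 24 ^ (a + 1) := one_le_pow₀ (by norm_num)
  have h576 : (24 : ℝ) ≤ 24 ^ (a + 1) := by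
    calc (24 : ℝ) = 24 ^ 1 := (pow_one _).symm
      _ ≤ _ := pow_le_pow_right₀ (by norm_num) (by omega)
  unfold nv
  have key : (((s + 1) * (4 * s + 1) + 2 * s * (24 ^ (a + 1) * s ^ a *
      (2 * Nat.clog 2 (s + 1) + 3) + 1) : ℕ) : ℝ) ≤ n := by
    refine le_trans ?_ h
    have e1 : (((s + 1) * (4 * s + 1) : ℕ) : ℝ) ≤ 10 * (s : ℝ) ^ (a + 1) := by
      push_cast
      nlinarith
    have e2 : ((2 * s * (24 ^ (a + 1) * s ^ a * (2 * Nat.clog 2 (s + 1) + 3) + 1) : ℕ) : ℝ) ≤
        16 * 24 ^ (a + 1) * (s : ℝ) ^ (a + 1) * Real.log n + 2 * (s : ℝ) ^ (a + 1) := by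
      have e3 : ((2 * s * (24 ^ (a + 1) * s ^ a * (2 * Nat.clog 2 (s + 1) + 3) + 1) : ℕ) : ℝ) =
          2 * 24 ^ (a + 1) * (s : ℝ) ^ (a + 1) * ((2 * Nat.clog 2 (s + 1) + 3 : ℕ) : ℝ) +
            2 * s := by
        push_cast
        ring
      rw [e3]
      have e4 : 2 * 24 ^ (a + 1) * (s : ℝ) ^ (a + 1) * ((2 * Nat.clog 2 (s + 1) + 3 : ℕ) : ℝ) ≤
          2 * 24 ^ (a + 1) * (s : ℝ) ^ (a + 1) * (8 * Real.log n) :=
        mul_le_mul_of_nonneg_left hk (by positivity)
      nlinarith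
    have e5 : (s : ℝ) ^ (a + 1) ≤ (s : ℝ) ^ (a + 1) * 24 ^ (a + 1) * Real.log n := by
      have e6 : (1 : ℝ) ≤ 24 ^ (a + 1) * Real.log n := by nlinarith
      have e7 : (0 : ℝ) ≤ (s : ℝ) ^ (a + 1) := by positivity
      nlinarith
    have e8 : (((s + 1) * (4 * s + 1) + 2 * s * (24 ^ (a + 1) * s ^ a *
      (2 * Nat.clog 2 (s + 1) + 3) + 1) : ℕ) : ℝ) = (((s + 1) * (4 * s + 1) : ℕ) : ℝ) +
      ((2 * s * (24 ^ (a + 1) * s ^ a * (2 * Nat.clog 2 (s + 1) + 3) + 1) : ℕ) : ℝ) := by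
      push_cast
      ring
    rw [e8]
    linarith
  exact_mod_cast key

/-- **All depths.** -/
theorem all_depths (m : ℕ) (hm : 3 ≤ m) (a : ℕ) (ha : 1 ≤ a) : ∀ᶠ n : ℕ in atTop,
    ∀ C : Circuit (Clause n m) (a + 3), C.Decides →
      (2 : ℝ) ^ ((1 / 1400 : ℝ) * ((n : ℝ) / Real.log n) ^ (1 / ((a : ℝ) + 1))) ≤ C.size := by
  have hx : Tendsto (fun n : ℕ => ((n : ℝ) / Real.log n) ^ (1 / ((a : ℝ) + 1))) atTop atTop := by
    have h1 : Tendsto (fun x : ℝ => x / Real.log x) atTop atTop := by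
      have h2 := Real.isLittleO_log_id_atTop.tendsto_div_nhds_zero
      have h3 : Tendsto (fun x : ℝ => Real.log x / x) atTop (nhdsWithin 0 (Set.Ioi 0)) := by
        rw [tendsto_nhdsWithin_iff]
        refine ⟨h2, ?_⟩
        filter_upwards [eventually_gt_atTop (1 : ℝ)] with x hx
        exact div_pos (Real.log_pos hx) (by linarith)
      have h4 := h3.inv_tendsto_nhdsGT_zero
      refine h4.congr fun x => ?_
      simp
    have h5 := (tendsto_rpow_atTop (y := 1 / ((a : ℝ) + 1)) (by positivity)).comp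
      (h1.comp tendsto_natCast_atTop_atTop)
    exact h5
  filter_upwards [hx.eventually_ge_atTop (100000 * ((a : ℝ) + 3)), eventually_ge_atTop 3]
    with n hxn hn
  intro C hC
  set x : ℝ := ((n : ℝ) / Real.log n) ^ (1 / ((a : ℝ) + 1)) with hxdef
  have ha0 : (0 : ℝ) ≤ a := Nat.cast_nonneg a
  have hn' : (3 : ℝ) ≤ n := by exact_mod_cast hn
  have hlog : 1 ≤ Real.log n := by
    rw [← Real.log_exp 1]
    apply Real.log_le_log (Real.exp_pos 1)
    have := Real.exp_one_lt_d9
    linarith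
  have hx0 : 0 ≤ x := by nlinarith
  have hxp : x ^ (a + 1) = (n : ℝ) / Real.log n := by
    rw [hxdef, ← Real.rpow_natCast, ← Real.rpow_mul (by positivity)]
    push_cast
    rw [one_div_mul_cancel (by positivity), Real.rpow_one]
  obtain ⟨s, hs⟩ : ∃ s, s = ⌊x / 672⌋₊ := ⟨_, rfl⟩
  have hs1 : (s : ℝ) ≤ x / 672 := by
    rw [hs]
    exact Nat.floor_le (by positivity)
  have hs2 : x / 672 < s + 1 := by
    rw [hs]
    exact Nat.lt_floor_add_one _
  have hspos : 1 ≤ s := by
    rw [hs]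
    apply Nat.le_floor
    push_cast
    nlinarith
  have hs0 : (1 : ℝ) ≤ s := by exact_mod_cast hspos
  -- enough variables
  have hsx : (s : ℝ) ^ (a + 1) * (28 * 24 ^ (a + 1) * Real.log n) ≤ n := by
    have h1 : (s : ℝ) ^ (a + 1) ≤ (x / 672) ^ (a + 1) := pow_le_pow_left₀ (by positivity) hs1 _
    have h2 : (x / 672) ^ (a + 1) * (28 * 24 ^ (a + 1) * Real.log n) =
        (x ^ (a + 1) * Real.log n) * (28 * (1 / 28) ^ (a + 1)) := by
      rw [div_pow]
      have h3 : (672 : ℝ) ^ (a + 1) = 28 ^ (a + 1) * 24 ^ (a + 1) := by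
        rw [← mul_pow]
        norm_num
      rw [h3, one_div_pow]
      field_simp
    have h3 : x ^ (a + 1) * Real.log n = n := by
      rw [hxp]
      field_simp
    have h4 : (28 : ℝ) * (1 / 28) ^ (a + 1) ≤ 1 := by
      rw [pow_succ]
      have : ((1 : ℝ) / 28) ^ a ≤ 1 := pow_le_one₀ (by norm_num) (by norm_num)
      linarith
    calc (s : ℝ) ^ (a + 1) * (28 * 24 ^ (a + 1) * Real.log n)
        ≤ (x / 672) ^ (a + 1) * (28 * 24 ^ (a + 1) * Real.log n) :=
          mul_le_mul_of_nonneg_right h1 (by positivity)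
      _ = (n : ℝ) * (28 * (1 / 28) ^ (a + 1)) := by rw [h2, h3]
      _ ≤ n * 1 := mul_le_mul_of_nonneg_left h4 (by positivity)
      _ = n := mul_one _
  have hsn : s + 1 ≤ n := by
    have h1 : (s : ℝ) + 1 ≤ n := by
      have h2 : (s : ℝ) ≤ (s : ℝ) ^ (a + 1) := by
        calc (s : ℝ) = (s : ℝ) ^ 1 := (pow_one _).symm
          _ ≤ _ := pow_le_pow_right₀ hs0 (by omega)
      have h3 : (1 : ℝ) ≤ 24 ^ (a + 1) := one_le_pow₀ (by norm_num)
      have h4 : (2 : ℝ) ≤ 28 * 24 ^ (a + 1) * Real.log n := by nlinarith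
      nlinarith
    exact_mod_cast h1
  have hk : 4 * ((s + 1) * (2 * s)) ≤ 2 ^ (2 * Nat.clog 2 (s + 1) + 3) := by
    have h1 : s + 1 ≤ 2 ^ Nat.clog 2 (s + 1) := Nat.le_pow_clog (by norm_num) _
    have h2 : (2 : ℕ) ^ (2 * Nat.clog 2 (s + 1) + 3) =
        8 * (2 ^ Nat.clog 2 (s + 1) * 2 ^ Nat.clog 2 (s + 1)) := by
      rw [pow_add, two_mul, pow_add]
      ring
    rw [h2]
    have h3 := Nat.mul_le_mul h1 h1
    nlinarith
  have hb := size_bound hm hspos hk (nv_le ha hspos hsn hn hsx) C hC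
  have hb' : (2 : ℝ) ^ s < (a + 1) * C.size * 2 := by exact_mod_cast hb
  have ha2 : ((a : ℝ) + 1) * 2 ≤ 2 ^ (a + 1) * 2 := by
    have : a + 1 < 2 ^ (a + 1) := Nat.lt_two_pow_self
    have h1 : ((a + 1 : ℕ) : ℝ) < ((2 ^ (a + 1) : ℕ) : ℝ) := by exact_mod_cast this
    push_cast at h1
    linarith
  have hS0 : (0 : ℝ) ≤ C.size := Nat.cast_nonneg _
  have h1 : (2 : ℝ) ^ s ≤ C.size * 2 ^ (a + 2) := by
    have h2 : ((a : ℝ) + 1) * C.size * 2 ≤ C.size * (2 ^ (a + 1) * 2) := by nlinarith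
    calc (2 : ℝ) ^ s ≤ (a + 1) * C.size * 2 := hb'.le
      _ ≤ C.size * (2 ^ (a + 1) * 2) := h2
      _ = C.size * 2 ^ (a + 2) := by ring
  have h2 : (2 : ℝ) ^ ((1 / 1400 : ℝ) * x) * 2 ^ (a + 2) ≤ (2 : ℝ) ^ s := by
    rw [← Real.rpow_natCast (2 : ℝ) (a + 2), ← Real.rpow_natCast (2 : ℝ) s,
      ← Real.rpow_add (by norm_num)]
    apply Real.rpow_le_rpow_of_exponent_le (by norm_num)
    push_cast
    linarith
  have h3 : (0 : ℝ) < 2 ^ (a + 2) := by positivity
  exact le_of_mul_le_mul_right (h2.trans h1) h3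

end Pool.Agent.J4H64.AD
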