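import Pool.Agent.H596R2.D3.Emb

set_option autoImplicit false

/-! Families of 3-CNF formulas with selectors and shared parity chains. -/

namespace Pool.Agent.J4H64.AD

open Finset Classical Pool.Agent.H596R2.D3

section Par

variable {L : ℕ}

/-- the parity of the first bits -/
def pp (f : Fin L → Bool) : ℕ → Bool
  | 0 => false
  | l + 1 => if h : l < L then xor (pp f l) (f ⟨l, h⟩) else pp f l

/-- the parity of all bits -/
def par (f : Fin L → Bool) : Bool := pp f L

lemma pp_succ (f : Fin L → Bool) (l : Fin L) : pp f (l.val + 1) = xor (pp f l.val) (f l) := by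
  rw [pp, dif_pos l.2]

lemma par_flip (f g : Fin L → Bool) (t : Fin L) (h : ∀ l, l ≠ t → f l = g l) :
    xor (par f) (par g) = xor (f t) (g t) := by
  have key : ∀ l : ℕ, l ≤ L → xor (pp f l) (pp g l) =
      if t.val < l then xor (f t) (g t) else false := by
    intro l
    induction l with
    | zero => intro _; simp [pp]
    | succ l ih =>
      intro hl
      have h1 := ih (by omega)
      have hlt : l < L := by omega
      rw [pp, pp, dif_pos hlt, dif_pos hlt]
      by_cases ht : t.val = l
      · have h2 : (⟨l, hlt⟩ : Fin L) = t := Fin.ext ht.symm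
        rw [if_neg (by omega)] at h1
        rw [if_pos (by omega), h2]
        have h3 : pp f l = pp g l := by
          cases h4 : pp f l <;> cases h5 : pp g l <;> simp_all
        rw [h3]
        cases pp g l <;> cases f t <;> cases g t <;> rfl
      · have h2 := h ⟨l, hlt⟩ (fun h => ht (by rw [← h]))
        rw [h2]
        have h3 : (xor (xor (pp f l) (g ⟨l, hlt⟩)) (xor (pp g l) (g ⟨l, hlt⟩))) =
            xor (pp f l) (pp g l) := by
          cases pp f l <;> cases pp g l <;> cases g ⟨l, hlt⟩ <;> rfl
        rw [h3, h1]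
        by_cases h4 : t.val < l
        · rw [if_pos h4, if_pos (by omega)]
        · rw [if_neg h4, if_neg (by omega)]
  have h1 := key L le_rfl
  rw [if_pos t.2] at h1
  exact h1

end Par

/-- The variables: selectors, staircases and parity chains. -/
abbrev VA (K I : Type) (r L : ℕ) : Type :=
  (K × (Fin r ⊕ Fin (r + 1))) ⊕ (I × Fin (L + 1))

variable {K I : Type} {r L : ℕ}

def au (k : K) (j : Fin r) : VA K I r L := Sum.inl (k, Sum.inl j)
def ay (k : K) (d : Fin (r + 1)) : VA K I r L := Sum.inl (k, Sum.inr d)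
def as (i : I) (l : Fin (L + 1)) : VA K I r L := Sum.inr (i, l)

/-- the fixed clauses -/
def fxA (K I : Type) (r L : ℕ) : Set (Finset (VA K I r L × Bool)) :=
  {c | (∃ k, c = {(ay k 0, true)}) ∨ (∃ k, c = {(ay k (Fin.last r), false)}) ∨
    (∃ k d, c = {(ay k d.castSucc, false), (au k d, true), (ay k d.succ, true)}) ∨
    (∃ i, c = {(as i 0, false)}) ∨ (∃ i, c = {(as i (Fin.last L), false)})}

/-- if `j` is selected by `κ i` then the pair of consecutive values of the chain of `i` is not the
negation of `(a, b)` -/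
noncomputable def clA (κ : I → K) (q : ((I × Fin r) × Fin L) × (Bool × Bool)) :
    Finset (VA K I r L × Bool) :=
  {(au (κ q.1.1.1) q.1.1.2, false), (as q.1.1.1 q.1.2.castSucc, q.2.1),
    (as q.1.1.1 q.1.2.succ, q.2.2)}

lemma fxA_card {c : Finset (VA K I r L × Bool)} (hc : c ∈ fxA K I r L) : c.card ≤ 3 := by
  rcases hc with ⟨k, rfl⟩ | ⟨k, rfl⟩ | ⟨k, d, rfl⟩ | ⟨i, rfl⟩ | ⟨i, rfl⟩
  · simp
  · simp
  · exact card_le_three
  · simp
  · simp

lemma clA_card (κ : I → K) (q : ((I × Fin r) × Fin L) × (Bool × Bool)) :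
    (clA κ q).card ≤ 3 := card_le_three

lemma clA_inj (κ : I → K) : Function.Injective (clA (r := r) (L := L) κ) := by
  rintro ⟨⟨⟨i, j⟩, l⟩, a, b⟩ ⟨⟨⟨i', j'⟩, l'⟩, a', b'⟩ h
  have h1 : ((au (κ i) j : VA K I r L), false) ∈ clA κ (((i', j'), l'), a', b') := by
    rw [← h]; simp [clA]
  have h2 : ((as i l.castSucc : VA K I r L), a) ∈ clA κ (((i', j'), l'), a', b') := by
    rw [← h]; simp [clA]
  have h3 : ((as i l.succ : VA K I r L), b) ∈ clA κ (((i', j'), l'), a', b') := by
    rw [← h]; simp [clA]
  simp only [clA, au, as, mem_insert, mem_singleton, Prod.mk.injEq, Sum.inl.injEq,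
    Sum.inr.injEq, reduceCtorEq, false_and, or_false, and_true, false_or] at h1 h2 h3
  obtain ⟨_, rfl⟩ := h1
  have hl : l = l' := by
    rcases h2 with ⟨⟨_, h2⟩, _⟩ | ⟨⟨_, h2⟩, _⟩
    · exact Fin.castSucc_injective _ h2
    · rcases h3 with ⟨⟨_, h3⟩, _⟩ | ⟨⟨_, h3⟩, _⟩
      · exfalso
        have e1 := congrArg Fin.val h2
        have e2 := congrArg Fin.val h3
        simp only [Fin.val_castSucc, Fin.val_succ] at e1 e2
        omega
      · exact Fin.succ_injective _ h3
  subst hl
  have hne : l.castSucc ≠ l.succ := by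
    intro e
    have e1 := congrArg Fin.val e
    simp only [Fin.val_castSucc, Fin.val_succ] at e1
    omega
  rcases h2 with ⟨⟨rfl, _⟩, rfl⟩ | ⟨⟨_, h2⟩, _⟩
  · rcases h3 with ⟨⟨_, h3⟩, _⟩ | ⟨_, rfl⟩
    · exact absurd h3.symm hne
    · rfl
  · exact absurd h2 hne

/-- **The formula**: for every `k` some `j` is good for all `i` of `k`. -/
lemma satA (κ : I → K) (w : (I × Fin r) × Fin L → Bool) :
    (∃ x : VA K I r L → Bool, (∀ c ∈ fxA K I r L, ∃ l ∈ c, x l.1 = l.2) ∧
        ∀ q : ((I × Fin r) × Fin L) × (Bool × Bool),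
          xor (xor (w q.1) (!(q.2.1 == q.2.2))) false = true → ∃ l ∈ clA κ q, x l.1 = l.2) ↔
      ∀ k, ∃ j, ∀ i, κ i = k → par (fun l => w ((i, j), l)) = false := by
  constructor
  · rintro ⟨x, hx, hq⟩ k
    obtain ⟨j, hj⟩ : ∃ j, x (au k j) = true := by
      refine chain (fun a => x (au k a)) (fun d => x (ay k d)) ?_ ?_ ?_
      · obtain ⟨l, hl, h⟩ := hx {(ay k 0, true)} (Or.inl ⟨k, rfl⟩)
        rw [mem_singleton] at hl
        subst hl
        exact h
      · intro d
        obtain ⟨l, hl, h⟩ := hx {(ay k d.castSucc, false), (au k d, true),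
          (ay k d.succ, true)} (Or.inr (Or.inr (Or.inl ⟨k, d, rfl⟩)))
        simp only [mem_insert, mem_singleton] at hl
        rcases hl with rfl | rfl | rfl
        · exact Or.inl h
        · exact Or.inr (Or.inl h)
        · exact Or.inr (Or.inr h)
      · obtain ⟨l, hl, h⟩ := hx {(ay k (Fin.last r), false)} (Or.inr (Or.inl ⟨k, rfl⟩))
        rw [mem_singleton] at hl
        subst hl
        exact h
    refine ⟨j, fun i hi => ?_⟩
    subst hi
    have h0 : x (as i 0) = false := by
      obtain ⟨l, hl, h⟩ := hx {(as i 0, false)} (Or.inr (Or.inr (Or.inr (Or.inl ⟨i, rfl⟩))))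
      rw [mem_singleton] at hl
      subst hl
      exact h
    have hL : x (as i (Fin.last L)) = false := by
      obtain ⟨l, hl, h⟩ := hx {(as i (Fin.last L), false)}
        (Or.inr (Or.inr (Or.inr (Or.inr ⟨i, rfl⟩))))
      rw [mem_singleton] at hl
      subst hl
      exact h
    have hstep : ∀ l : Fin L, x (as i l.succ) = xor (x (as i l.castSucc)) (w ((i, j), l)) := by
      intro l
      by_contra hne
      -- the excluded pair
      obtain ⟨c, hc, h⟩ := hq (((i, j), l), (!(x (as i l.castSucc)), !(x (as i l.succ)))) (by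
        rw [Bool.xor_false]
        simp only
        cases h1 : x (as i l.castSucc) <;> cases h2 : x (as i l.succ) <;>
          cases h3 : w ((i, j), l) <;> simp_all)
      simp only [clA, mem_insert, mem_singleton] at hc
      rcases hc with rfl | rfl | rfl
      · simp only [hj] at h
        exact absurd h (by simp)
      · simp at h
      · simp at h
    have hall : ∀ d : Fin (L + 1), x (as i d) = pp (fun l => w ((i, j), l)) d.val := by
      intro d
      induction d using Fin.induction with
      | zero => rw [h0]; rfl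
      | succ d ih =>
        rw [hstep, ih, Fin.val_succ, pp_succ]
        rfl
    have h1 := hall (Fin.last L)
    rw [hL] at h1
    exact h1.symm
  · intro h
    choose J hJ using h
    let x : VA K I r L → Bool := fun v => match v with
      | Sum.inl (k, Sum.inl j) => decide (j = J k)
      | Sum.inl (k, Sum.inr d) => decide (d.1 ≤ (J k).1)
      | Sum.inr (i, l) => pp (fun l => w ((i, J (κ i)), l)) l.val
    have xu : ∀ k j, x (au k j) = decide (j = J k) := fun _ _ => rfl
    have xy : ∀ k d, x (ay k d) = decide (d.1 ≤ (J k).1) := fun _ _ => rfl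
    have xs : ∀ i l, x (as i l) = pp (fun l => w ((i, J (κ i)), l)) l.val := fun _ _ => rfl
    refine ⟨x, ?_, ?_⟩
    · rintro c (⟨k, rfl⟩ | ⟨k, rfl⟩ | ⟨k, d, rfl⟩ | ⟨i, rfl⟩ | ⟨i, rfl⟩)
      · exact ⟨_, mem_singleton_self _, by rw [xy]; simp⟩
      · refine ⟨_, mem_singleton_self _, ?_⟩
        rw [xy]
        have := (J k).2
        simp only [Fin.val_last, decide_eq_false_iff_not]
        omega
      · by_cases h1 : d.1 ≤ (J k).1
        · by_cases h2 : d = J k
          · exact ⟨(au k d, true), by simp, by rw [xu]; simp [h2]⟩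
          · refine ⟨(ay k d.succ, true), by simp, ?_⟩
            rw [xy]
            have h3 : d.1 ≠ (J k).1 := fun h => h2 (Fin.ext h)
            simp only [Fin.val_succ, decide_eq_true_eq]
            omega
        · refine ⟨(ay k d.castSucc, false), by simp, ?_⟩
          rw [xy]
          simpa using h1
      · exact ⟨_, mem_singleton_self _, by rw [xs]; rfl⟩
      · refine ⟨_, mem_singleton_self _, ?_⟩
        rw [xs]
        exact hJ (κ i) i rfl
    · rintro ⟨⟨⟨i, j⟩, l⟩, a, b⟩ hq
      by_cases hj : j = J (κ i)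
      · subst hj
        have h1 := pp_succ (fun l => w ((i, J (κ i)), l)) l
        by_cases h2 : x (as i l.castSucc) = a
        · exact ⟨(as i l.castSucc, a), by simp [clA], h2⟩
        · refine ⟨(as i l.succ, b), by simp [clA], ?_⟩
          show x (as i l.succ) = b
          rw [xs, Fin.val_succ, h1]
          rw [xs, Fin.val_castSucc] at h2
          simp only at h2 hq ⊢
          rw [Bool.xor_false] at hq
          revert h2 hq
          generalize pp (fun l => w ((i, J (κ i)), l)) l.val = u
          generalize w ((i, J (κ i)), l) = v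
          cases u <;> cases v <;> cases a <;> cases b <;> decide
      · refine ⟨(au (κ i) j, false), by simp [clA], ?_⟩
        show x (au (κ i) j) = false
        rw [xu]
        simpa using hj

lemma card_VA [Fintype K] [Fintype I] : Fintype.card (VA K I r L) =
    Fintype.card K * (r + (r + 1)) + Fintype.card I * (L + 1) := by
  simp [VA]

/-- The embedding into the formulas on `Fin n`. -/
theorem embA [Fintype K] [Fintype I] {n k : ℕ} (hk : 3 ≤ k) (κ : I → K)
    (hn : Fintype.card K * (r + (r + 1)) + Fintype.card I * (L + 1) ≤ n) :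
    ∃ X : ((I × Fin r) × Fin L → Bool) → Clause n k → Bool, IsProj X ∧
      ∀ w, Satisfiable (X w) ↔
        ∀ k, ∃ j, ∀ i, κ i = k → par (fun l => w ((i, j), l)) = false := by
  obtain ⟨f⟩ : Nonempty (VA K I r L ↪ Fin n) := by
    apply Function.Embedding.nonempty_of_card_le
    rw [card_VA, Fintype.card_fin]
    exact hn
  obtain ⟨X, hX, hS⟩ := embed (k := k) f f.injective (fxA K I r L) (clA κ)
    (fun c hc => (fxA_card hc).trans hk) (fun q => (clA_card κ q).trans hk) (clA_inj κ) false
  refine ⟨fun w => X fun q => xor (w q.1) (!(q.2.1 == q.2.2)), ?_, ?_⟩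
  · intro i
    rcases hX i with ⟨b, hb⟩ | ⟨q, s, h⟩
    · exact Or.inl ⟨b, fun w => hb _⟩
    · right
      refine ⟨q.1, xor (!(q.2.1 == q.2.2)) s, fun w => ?_⟩
      show X _ i = _
      rw [h, Bool.xor_assoc]
  · intro w
    rw [hS, ← satA]

end Pool.Agent.J4H64.AD
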