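import Pool.Agent.J4H64.AD.Top
import Pool.Agent.J4H64.AD.Col
import Pool.Agent.J4H64.AD.Inst

set_option autoImplicit false

/-! The lower bound for all depths: the combinatorial statement. -/

namespace Pool.Agent.J4H64.AD

open Finset H568R2 Pool.Agent.TH163.AC3 Pool.Agent.H596R2.D3
open scoped Classical

section Gates

variable {I : Type} {d : ℕ} (C : Circuit I d)

/-- the value of a gate -/
noncomputable def bv (z : I → Bool) (g : C.G) : Bool := decide (C.val z g)

/-- a gate has its polar value iff some wire has a given value -/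
theorem bv_pol (z : I → Bool) (g : C.G) : bv C z g = (!C.conj g) ↔
    (∃ i s, (Sum.inl i, s) ∈ C.wires g ∧ z i = xor s (C.conj g)) ∨
    (∃ h s, (Sum.inr h, s) ∈ C.wires g ∧ bv C z h = xor s (C.conj g)) := by
  unfold bv
  rw [Circuit.val]
  cases hc : C.conj g with
  | true =>
    simp only [if_true, Bool.not_true, decide_eq_false_iff_not, Bool.xor_true, not_and_or,
      not_forall]
    constructor
    · rintro (⟨i, s, h1, h2⟩ | ⟨h, s, h1, h2⟩)
      · left
        refine ⟨i, s, h1, ?_⟩
        cases s <;> simpa using h2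
      · right
        refine ⟨h, s, h1, ?_⟩
        cases s
        · simpa using h2
        · simpa using h2
    · rintro (⟨i, s, h1, h2⟩ | ⟨h, s, h1, h2⟩)
      · left
        refine ⟨i, s, h1, ?_⟩
        cases s <;> simpa using h2
      · right
        refine ⟨h, s, h1, ?_⟩
        cases s
        · simpa using h2
        · simpa using h2
  | false =>
    simp only [Bool.false_eq_true, if_false, Bool.not_false, decide_eq_true_eq, Bool.xor_false]
    constructor
    · rintro (⟨i, s, h1, h2⟩ | ⟨h, s, h1, h2⟩)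
      · exact Or.inl ⟨i, s, h1, h2⟩
      · right
        refine ⟨h, s, h1, ?_⟩
        cases s
        · simpa using h2
        · simpa using h2
    · rintro (⟨i, s, h1, h2⟩ | ⟨h, s, h1, h2⟩)
      · exact Or.inl ⟨i, s, h1, h2⟩
      · right
        refine ⟨h, s, h1, ?_⟩
        cases s
        · simpa using h2
        · simpa using h2

end Gates

section Restrict

variable {I Q : Type} {d : ℕ} (C : Circuit I d) {X : (Q → Bool) → I → Bool}

theorem proj_cert (hX : IsProj X) (i : I) (b : Bool) : Cert 1 b (fun w => X w i) := by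
  intro x hx
  rcases hX i with ⟨c, hc⟩ | ⟨q, s, h⟩
  · refine ⟨∅, by simp, fun y _ => ?_⟩
    show X y i = b
    rw [hc, ← hx]
    show c = X x i
    rw [hc]
  · refine ⟨{q}, by simp, fun y hy => ?_⟩
    show X y i = b
    rw [h, hy q (mem_singleton_self q), ← h x]
    exact hx

theorem gate_zero (hX : IsProj X) (g : C.G) (hg : (C.lev g).val = 0) :
    Cert 1 (!C.conj g) (fun w => bv C (X w) g) := by
  intro x hx
  rcases (bv_pol C _ g).1 hx with ⟨i, s, h1, h2⟩ | ⟨h, s, h1, _⟩
  · obtain ⟨A, hA, hy⟩ := proj_cert hX i _ x h2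
    exact ⟨A, hA, fun y hxy => (bv_pol C _ g).2 (Or.inl ⟨i, s, h1, hy y hxy⟩)⟩
  · have := C.mono g h s h1
    have h3 : (C.lev h).val < (C.lev g).val := this
    omega

theorem gate_succ [DecidableEq Q] (hX : IsProj X) {s : ℕ} (hs : 1 ≤ s) (g : C.G) (ρ : Restr Q)
    (h : ∀ h, (C.lev h).val < (C.lev g).val → HasDT s (rs (fun w => bv C (X w) h) ρ)) :
    Cert s (!C.conj g) (rs (fun w => bv C (X w) g) ρ) := by
  intro x hx
  rcases (bv_pol C _ g).1 hx with ⟨i, t, h1, h2⟩ | ⟨u, t, h1, h2⟩
  · obtain ⟨A, hA, hy⟩ := cert_rs (proj_cert hX i (xor t (C.conj g))) ρ x h2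
    exact ⟨A, hA.trans hs, fun y hxy => (bv_pol C _ g).2 (Or.inl ⟨i, t, h1, hy y hxy⟩)⟩
  · obtain ⟨A, hA, hy⟩ := (h u (C.mono g u t h1)).cert (xor t (C.conj g)) x h2
    exact ⟨A, hA, fun y hxy => (bv_pol C _ g).2 (Or.inr ⟨u, t, h1, hy y hxy⟩)⟩

end Restrict

/-- **The combinatorial core**: `B` are the blocks, `M × R` the matrix of blocks. -/
theorem core {I B M R : Type} [Fintype B] [DecidableEq B] [Fintype M] [Fintype R] (e : B ≃ M × R)
    {a L : ℕ} (C : Circuit I (a + 3)) {X : (B × Fin L → Bool) → I → Bool} (hX : IsProj X)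
    {s k : ℕ} (hs : 1 ≤ s) (hL : L = 24 ^ (a + 1) * s ^ a * k)
    (hk : 4 * Fintype.card B ≤ 2 ^ k) (hS : (a + 1) * C.size * 2 ≤ 2 ^ s)
    (hM : s < Fintype.card M) (σ : Bool)
    (hF : ∀ w, bv C (X w) C.out = (!C.conj C.out) ↔
      ∀ i, ∃ j, par (fun l => w (e.symm (i, j), l)) = σ) :
    Fintype.card R ^ Fintype.card M ≤ (2 * C.size + 1) * s ^ Fintype.card M := by
  let _ := C.fin
  obtain ⟨ρ, hρ, hst⟩ := exists_rho (fun g w => bv C (X w) g) (fun g => (C.lev g).val)
    (fun g hg => ⟨_, gate_zero C hX g hg⟩) hs (fun g ρ h => ⟨_, gate_succ C hX hs g ρ h⟩) a k hL hk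
    hS
  choose l hl using hst
  -- the free variables
  let c : B → Bool := fun b => par fun t => if t = l b then false else (ρ (b, t)).getD false
  let π : (M × R → Bool) → B × Fin L → Bool := fun y q =>
    if q.2 = l q.1 then xor (c q.1) (xor (y (e q.1)) (!σ)) else false
  let W : (M × R → Bool) → B × Fin L → Bool := fun y => ov ρ (π y)
  have hpar : ∀ y b, par (fun t => W y (b, t)) = xor (y (e b)) (!σ) := by
    intro y b
    have h1 := par_flip (fun t => W y (b, t))
      (fun t => if t = l b then false else (ρ (b, t)).getD false) (l b) (by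
        intro t ht
        simp only [W, ov, π, if_neg ht])
    have h2 : W y (b, l b) = xor (c b) (xor (y (e b)) (!σ)) := by
      simp only [W, ov, π, hl b, if_true, Option.getD_none]
    simp only [if_true, h2] at h1
    change xor (par fun t => W y (b, t)) (c b) = _ at h1
    revert h1
    generalize (par fun t => W y (b, t)) = p1
    generalize c b = p2
    generalize y (e b) = p3
    cases p1 <;> cases p2 <;> cases p3 <;> cases σ <;> decide
  have hFy : ∀ y, bv C (X (W y)) C.out = (!C.conj C.out) ↔ ∀ i, ∃ j, y (i, j) = true := by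
    intro y
    rw [hF]
    refine forall_congr' fun i => exists_congr fun j => ?_
    rw [hpar, e.apply_symm_apply]
    generalize y (i, j) = p
    cases p <;> cases σ <;> decide
  -- certificates in terms of the matrix
  have htr : ∀ {K : ℕ} {b : Bool} {f : (B × Fin L → Bool) → Bool}, Cert K b (rs f ρ) → ∀ y,
      f (W y) = b → ∃ A : Finset (M × R), A.card ≤ K ∧ ∀ y', (∀ p ∈ A, y' p = y p) →
        f (W y') = b := by
    intro K b f hf y hy
    obtain ⟨A, hA, h⟩ := hf (π y) hy
    refine ⟨A.image fun q => e q.1, card_image_le.trans hA, fun y' hy' => h (π y') ?_⟩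
    intro q hq
    simp only [π]
    rw [hy' _ (mem_image_of_mem _ hq)]
  -- the children of the output gate
  let U : Finset (Option (C.G × Bool)) := univ.filter fun u => match u with
    | none => True
    | some (h, t) => (Sum.inr h, t) ∈ C.wires C.out
  let acc : Option (C.G × Bool) → (M × R → Bool) → Prop := fun u y => match u with
    | none => ∃ i t, (Sum.inl i, t) ∈ C.wires C.out ∧ X (W y) i = xor t (C.conj C.out)
    | some (h, t) => bv C (X (W y)) h = xor t (C.conj C.out)
  have hUc : U.card ≤ 2 * C.size + 1 := by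
    refine (card_le_univ _).trans ?_
    rw [Fintype.card_option, Fintype.card_prod, Fintype.card_bool]
    unfold Circuit.size
    omega
  refine (top hM U acc ?_ ?_).trans (Nat.mul_le_mul_right _ hUc)
  · intro y
    rw [← hFy, bv_pol]
    constructor
    · rintro ⟨u, hu, hy⟩
      rw [mem_filter] at hu
      rcases u with _ | ⟨h, t⟩
      · exact Or.inl hy
      · exact Or.inr ⟨h, t, hu.2, hy⟩
    · rintro (h | ⟨h, t, h1, h2⟩)
      · exact ⟨none, mem_filter.2 ⟨mem_univ _, trivial⟩, h⟩
      · exact ⟨some (h, t), mem_filter.2 ⟨mem_univ _, h1⟩, h2⟩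
  · intro u hu
    rw [mem_filter] at hu
    rcases u with _ | ⟨h, t⟩
    · left
      rintro y ⟨i, t, h1, h2⟩
      obtain ⟨A, hA, hy⟩ := htr (cert_rs (proj_cert hX i (xor t (C.conj C.out))) ρ) y h2
      exact ⟨A, hA.trans hs, fun y' hy' => ⟨i, t, h1, hy y' hy'⟩⟩
    · have hlev : (C.lev h).val < (C.lev C.out).val := C.mono _ _ _ hu.2
      have hout : (C.lev C.out).val < a + 3 := (C.lev C.out).2
      have hcert : Cert s (!C.conj h) (rs (fun w => bv C (X w) h) ρ) :=
        gate_succ C hX hs h ρ (fun g hg => hρ g (by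
          show (C.lev g).val < a + 1
          omega))
      have hcert' := htr hcert
      by_cases hb : xor t (C.conj C.out) = !C.conj h
      · left
        intro y hy
        obtain ⟨A, hA, h2⟩ := hcert' y (by rw [← hb]; exact hy)
        refine ⟨A, hA, fun y' hy' => ?_⟩
        show bv C (X (W y')) h = _
        rw [hb]
        exact h2 y' hy'
      · right
        have hb' : xor t (C.conj C.out) = C.conj h := by
          revert hb
          cases xor t (C.conj C.out) <;> cases C.conj h <;> decide
        intro y hy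
        have h3 : ∀ y, ¬ acc (some (h, t)) y ↔ bv C (X (W y)) h = !C.conj h := by
          intro y
          show ¬ (bv C (X (W y)) h = _) ↔ _
          rw [hb']
          cases bv C (X (W y)) h <;> cases C.conj h <;> decide
        obtain ⟨A, hA, h2⟩ := hcert' y ((h3 y).1 hy)
        exact ⟨A, hA, fun y' hy' => (h3 y').2 (h2 y' hy')⟩

end Pool.Agent.J4H64.AD
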