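import Mathlib

set_option autoImplicit false

/-! The top-down part of the lower bound: limits of sets of choice functions. -/

namespace Pool.Agent.J4H64.AD

open Finset
open scoped Classical

variable {M R : Type} [Fintype M] [Fintype R]

/-- the matrix of a partial choice function -/
noncomputable def mt (ψ : M → Option R) : M × R → Bool := fun p => decide (ψ p.1 = some p.2)

/-- the matrix of a choice function -/
noncomputable def mf (φ : M → R) : M × R → Bool := fun p => decide (φ p.1 = p.2)

/-- `φ` extends `ψ` -/
def Ext (ψ : M → Option R) (φ : M → R) : Prop := ∀ i j, ψ i = some j → φ i = j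

/-- the rows without a choice -/
noncomputable def und (ψ : M → Option R) : Finset M := univ.filter fun i => ψ i = none

theorem count_ext {s : ℕ} {B : Finset (M → R)}
    (h : ∀ y : M × R → Bool, (∃ i, ∀ j, y (i, j) = false) → ∃ A : Finset (M × R), A.card ≤ s ∧
      ∀ φ ∈ B, ∃ p ∈ A, y p ≠ mf φ p) :
    ∀ (k : ℕ) (ψ : M → Option R), (und ψ).card = k → (B.filter fun φ => Ext ψ φ).card ≤ s ^ k := by
  intro k
  induction k with
  | zero =>
    intro ψ hψ
    rw [pow_zero, card_le_one]
    intro φ hφ φ' hφ'
    rw [mem_filter] at hφ hφ'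
    funext i
    have h1 : i ∉ und ψ := by
      rw [card_eq_zero] at hψ
      rw [hψ]
      exact notMem_empty _
    unfold und at h1
    rw [mem_filter, not_and] at h1
    have h2 := h1 (mem_univ _)
    obtain ⟨j, hj⟩ := Option.ne_none_iff_exists'.1 h2
    rw [hφ.2 i j hj, hφ'.2 i j hj]
  | succ k ih =>
    intro ψ hψ
    obtain ⟨i₀, hi₀⟩ : (und ψ).Nonempty := by
      rw [← card_pos]
      omega
    have hi₀' : ψ i₀ = none := (mem_filter.1 hi₀).2
    obtain ⟨A, hA, hAB⟩ := h (mt ψ) ⟨i₀, fun j => by
      unfold mt
      simp only [hi₀']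
      simp⟩
    have hsub : (B.filter fun φ => Ext ψ φ) ⊆ (A.filter fun p => ψ p.1 = none).biUnion fun p =>
        B.filter fun φ => Ext (Function.update ψ p.1 (some p.2)) φ := by
      intro φ hφ
      rw [mem_filter] at hφ
      obtain ⟨p, hp, hne⟩ := hAB φ hφ.1
      have h1 : ψ p.1 = none := by
        by_contra h2
        obtain ⟨j, hj⟩ := Option.ne_none_iff_exists'.1 h2
        have h3 := hφ.2 _ _ hj
        apply hne
        unfold mt mf
        rw [hj, h3]
        simp
      have h2 : φ p.1 = p.2 := by
        by_contra h3
        apply hne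
        unfold mt mf
        rw [h1]
        simp [h3]
      rw [mem_biUnion]
      refine ⟨p, mem_filter.2 ⟨hp, h1⟩, mem_filter.2 ⟨hφ.1, ?_⟩⟩
      intro i j hij
      by_cases hi : i = p.1
      · subst hi
        rw [Function.update_self, Option.some.injEq] at hij
        rw [h2, hij]
      · rw [Function.update_of_ne hi] at hij
        exact hφ.2 i j hij
    calc (B.filter fun φ => Ext ψ φ).card ≤ _ := card_le_card hsub
      _ ≤ ∑ p ∈ A.filter fun p => ψ p.1 = none,
          (B.filter fun φ => Ext (Function.update ψ p.1 (some p.2)) φ).card := card_biUnion_le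
      _ ≤ ∑ _p ∈ A.filter fun p => ψ p.1 = none, s ^ k := by
          apply sum_le_sum
          intro p hp
          rw [mem_filter] at hp
          apply ih
          have h1 : und (Function.update ψ p.1 (some p.2)) = (und ψ).erase p.1 := by
            ext i
            unfold und
            rw [mem_filter, mem_erase, mem_filter]
            by_cases hi : i = p.1
            · subst hi
              simp
            · rw [Function.update_of_ne hi]
              simp [hi]
          have hm : p.1 ∈ und ψ := mem_filter.2 ⟨mem_univ _, hp.2⟩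
          rw [h1, card_erase_of_mem hm, hψ]
          rfl
      _ = (A.filter fun p => ψ p.1 = none).card * s ^ k := by rw [sum_const, smul_eq_mul]
      _ ≤ s * s ^ k := Nat.mul_le_mul_right _ ((card_filter_le _ _).trans hA)
      _ = s ^ (k + 1) := by rw [pow_succ']

/-- A large set of choice functions has an `s`-limit with an empty row. -/
theorem limit {s : ℕ} {B : Finset (M → R)} (hB : s ^ Fintype.card M < B.card) :
    ∃ y : M × R → Bool, (∃ i, ∀ j, y (i, j) = false) ∧
      ∀ A : Finset (M × R), A.card ≤ s → ∃ φ ∈ B, ∀ p ∈ A, y p = mf φ p := by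
  by_contra hcon
  push Not at hcon
  have h1 := count_ext (s := s) (B := B) (fun y hy => hcon y hy) (Fintype.card M) (fun _ => none)
    (by unfold und; simp)
  have h2 : (B.filter fun φ => Ext (fun _ => none) φ) = B := by
    apply filter_true_of_mem
    intro φ _ i j hij
    simp at hij
  rw [h2] at h1
  omega

/-- **The top-down bound**: `F` says that every row has an entry which is true; if it is the
disjunction of predicates each of which has, or whose negation has, certificates of size `s`,
then there are many of them. -/
theorem top {s : ℕ} (hs : s < Fintype.card M) {ι : Type} (U : Finset ι)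
    (acc : ι → (M × R → Bool) → Prop)
    (hF : ∀ y, (∃ u ∈ U, acc u y) ↔ ∀ i, ∃ j, y (i, j) = true)
    (hacc : ∀ u ∈ U, (∀ y, acc u y → ∃ A : Finset (M × R), A.card ≤ s ∧
        ∀ y', (∀ p ∈ A, y' p = y p) → acc u y') ∨
      (∀ y, ¬ acc u y → ∃ A : Finset (M × R), A.card ≤ s ∧
        ∀ y', (∀ p ∈ A, y' p = y p) → ¬ acc u y')) :
    Fintype.card R ^ Fintype.card M ≤ U.card * s ^ Fintype.card M := by
  have hsel : ∀ φ : M → R, ∃ u ∈ U, acc u (mf φ) := by
    intro φ
    rw [hF]
    intro i
    exact ⟨φ i, by simp [mf]⟩
  have hcard : Fintype.card R ^ Fintype.card M = (univ : Finset (M → R)).card := by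
    rw [card_univ, Fintype.card_fun]
  rw [hcard]
  have hsub : (univ : Finset (M → R)) ⊆ U.biUnion fun u => univ.filter fun φ => acc u (mf φ) := by
    intro φ _
    obtain ⟨u, hu, h⟩ := hsel φ
    exact mem_biUnion.2 ⟨u, hu, mem_filter.2 ⟨mem_univ _, h⟩⟩
  refine (card_le_card hsub).trans (card_biUnion_le.trans ?_)
  rw [← smul_eq_mul, ← sum_const]
  apply sum_le_sum
  intro u hu
  rcases hacc u hu with h | h
  · -- a predicate with small certificates accepts no choice function
    have h0 : (univ.filter fun φ : M → R => acc u (mf φ)) = ∅ := by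
      apply filter_false_of_mem
      intro φ _ hφ
      obtain ⟨A, hA, hA'⟩ := h _ hφ
      obtain ⟨i, hi⟩ : ∃ i, i ∉ A.image Prod.fst := by
        by_contra hcon
        push Not at hcon
        have h1 : Fintype.card M ≤ (A.image Prod.fst).card := by
          rw [← card_univ]
          exact card_le_card fun i _ => hcon i
        have h2 : (A.image Prod.fst).card ≤ A.card := card_image_le
        omega
      have h1 := hA' (fun p => if p.1 = i then false else mf φ p) (by
        intro p hp
        rw [if_neg]
        rintro rfl
        exact hi (mem_image_of_mem _ hp))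
      obtain ⟨j, hj⟩ := (hF _).1 ⟨u, hu, h1⟩ i
      simp at hj
    rw [h0, card_empty]
    exact Nat.zero_le _
  · -- the limit
    by_contra hcon
    push Not at hcon
    obtain ⟨y, ⟨i, hi⟩, hy⟩ := limit hcon
    have h1 : acc u y := by
      by_contra hna
      obtain ⟨A, hA, hA'⟩ := h y hna
      obtain ⟨φ, hφ, hag⟩ := hy A hA
      exact hA' (mf φ) (fun p hp => (hag p hp).symm) (mem_filter.1 hφ).2
    obtain ⟨j, hj⟩ := (hF y).1 ⟨u, hu, h1⟩ i
    rw [hi] at hj
    exact absurd hj (by simp)

end Pool.Agent.J4H64.AD
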